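import Mathlib
import Pool.Agent.TH767.B.Arith

/-!
In ZFC the class of completely characterizable cardinals is closed under exponentiation.
-/

namespace Pool.Agent.Results.MP_18f1d7_lc.Exponentiation

open Pool.Agent.TH767.B Cardinal

theorem result : ∀ κ l : Cardinal.{0}, Ch κ → Ch l → Ch (l ^ κ) :=
  fun _ _ hk hl => ch_pow hk hl

end Pool.Agent.Results.MP_18f1d7_lc.Exponentiation
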